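import Pool.Agent.H741.RS.Stm

/-!
# `S_MIN` of project RS (helper741): strict minimum at `0`
-/

set_option autoImplicit false
open scoped ComplexConjugate

namespace Pool.Agent.H553.RS

open Pool.Agent.H741.RS

theorem hom_bd {n : ℕ} (i : ℕ) (P : MvPolynomial (Fin n) ℂ) (hP : P.IsHomogeneous i) :
    ∃ C : ℝ, 0 ≤ C ∧ ∀ z : V n, ‖ev P z‖ ≤ C * ‖z‖ ^ i := by
  refine ⟨∑ d ∈ P.support, ‖P.coeff d‖, Finset.sum_nonneg fun d _ => norm_nonneg _, fun z => ?_⟩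
  unfold ev
  rw [MvPolynomial.eval_eq', Finset.sum_mul]
  refine (norm_sum_le _ _).trans (Finset.sum_le_sum fun d hd => ?_)
  rw [norm_mul, norm_prod]
  refine mul_le_mul_of_nonneg_left ?_ (norm_nonneg _)
  have hdeg : ∑ l, d l = i := by
    have h1 := hP (MvPolynomial.mem_support_iff.1 hd)
    rw [Finsupp.weight_apply] at h1
    rw [← h1, Finsupp.sum_fintype _ _ (by simp)]
    simp
  calc ∏ l, ‖z l ^ d l‖ ≤ ∏ l, ‖z‖ ^ d l := by
        refine Finset.prod_le_prod (fun l _ => norm_nonneg _) fun l _ => ?_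
        rw [norm_pow]
        exact pow_le_pow_left₀ (norm_nonneg _) (PiLp.norm_apply_le z l) _
    _ = ‖z‖ ^ (∑ l, d l) := Finset.prod_pow_eq_pow_sum _ _ _
    _ = ‖z‖ ^ i := by rw [hdeg]

theorem hker_bd {n i j : ℕ} (u : V n → V n → ℂ) (hu : HKer i j u) :
    ∃ C : ℝ, 0 ≤ C ∧ ∀ z : V n, ‖u z z‖ ≤ C * ‖z‖ ^ (i + j) := by
  obtain ⟨m, a, b, hab, hu⟩ := hu
  choose Ca hCa0 hCa using fun l => hom_bd i (a l) (hab l).1
  choose Cb hCb0 hCb using fun l => hom_bd j (b l) (hab l).2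
  refine ⟨∑ l, Ca l * Cb l, Finset.sum_nonneg fun l _ => mul_nonneg (hCa0 l) (hCb0 l),
    fun z => ?_⟩
  rw [hu, Finset.sum_mul]
  refine (norm_sum_le _ _).trans (Finset.sum_le_sum fun l _ => ?_)
  rw [norm_mul, RCLike.norm_conj]
  calc ‖ev (a l) z‖ * ‖ev (b l) z‖ ≤ (Ca l * ‖z‖ ^ i) * (Cb l * ‖z‖ ^ j) :=
        mul_le_mul (hCa l z) (hCb l z) (norm_nonneg _)
          (mul_nonneg (hCa0 l) (pow_nonneg (norm_nonneg _) _))
    _ = Ca l * Cb l * ‖z‖ ^ (i + j) := by rw [pow_add]; ring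

theorem ev_zero_deg {n : ℕ} (P : MvPolynomial (Fin n) ℂ) (hP : P.IsHomogeneous 0) (z w : V n) :
    ev P z = ev P w := by
  have h1 : P.totalDegree = 0 := Nat.le_zero.1 hP.totalDegree_le
  rw [MvPolynomial.totalDegree_eq_zero_iff_eq_C] at h1
  unfold ev
  rw [h1, MvPolynomial.eval_C, MvPolynomial.eval_C]

theorem hker_zero {n : ℕ} (u : V n → V n → ℂ) (hu : HKer 0 0 u) (z : V n) : u z z = u 0 0 := by
  obtain ⟨m, a, b, hab, hu⟩ := hu
  rw [hu, hu]
  refine Finset.sum_congr rfl fun l _ => ?_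
  rw [ev_zero_deg (a l) (hab l).1 z 0, ev_zero_deg (b l) (hab l).2 z 0]

theorem term_bd {n : ℕ} (v : ℕ → ℕ → V n → V n → ℂ) (hv : ∀ i j, HKer i j (v i j))
    (h01 : v 0 1 = 0) (h10 : v 1 0 = 0) (i j : ℕ) :
    ∃ C : ℝ, 0 ≤ C ∧ ∀ z : V n, ‖z‖ < 1 → ‖v i j z z - v i j 0 0‖ ≤ C * ‖z‖ ^ 2 := by
  by_cases h2 : 2 ≤ i + j
  · obtain ⟨C, hC0, hC⟩ := hker_bd (v i j) (hv i j)
    refine ⟨C, hC0, fun z hz => ?_⟩
    have h0 : v i j 0 0 = 0 := by
      have h3 := hC 0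
      rw [norm_zero, zero_pow (by omega), mul_zero] at h3
      exact norm_le_zero_iff.1 h3
    rw [h0, sub_zero]
    refine (hC z).trans (mul_le_mul_of_nonneg_left ?_ hC0)
    exact pow_le_pow_of_le_one (norm_nonneg _) hz.le h2
  · refine ⟨0, le_rfl, fun z _ => ?_⟩
    rw [zero_mul]
    have h3 : v i j z z - v i j 0 0 = 0 := by
      rcases Nat.lt_or_ge i 1 with hi | hi
      · have hi0 : i = 0 := by omega
        subst hi0
        rcases Nat.lt_or_ge j 1 with hj | hj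
        · have hj0 : j = 0 := by omega
          subst hj0
          rw [hker_zero (v 0 0) (hv 0 0) z, sub_self]
        · have hj1 : j = 1 := by omega
          subst hj1
          rw [h01]
          simp
      · have hi1 : i = 1 := by omega
        have hj0 : j = 0 := by omega
        subst hi1 hj0
        rw [h10]
        simp
    rw [h3, norm_zero]

theorem hp_self {n : ℕ} (z : V n) : hp z z = ((‖z‖ ^ 2 : ℝ) : ℂ) := by
  unfold hp
  rw [inner_self_eq_norm_sq_to_K]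
  push_cast
  rfl

theorem u0_re {n : ℕ} (k : ℕ) (z : V n) :
    (u0 k z z).re = ∑ j ∈ Finset.range (k + 1), (1 / ((j : ℝ) + 2)) * (‖z‖ ^ 2) ^ j := by
  unfold u0
  rw [hp_self, Complex.re_sum]
  refine Finset.sum_congr rfl fun j _ => ?_
  have e : (1 / ((j : ℂ) + 2)) * ((‖z‖ ^ 2 : ℝ) : ℂ) ^ j =
      (((1 / ((j : ℝ) + 2)) * (‖z‖ ^ 2) ^ j : ℝ) : ℂ) := by
    push_cast
    rfl
  rw [e, Complex.ofReal_re]

theorem u0_zero {n : ℕ} (k : ℕ) : (u0 k (0 : V n) 0).re = 1 / 2 := by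
  rw [u0_re, Finset.sum_range_succ']
  have h : ∑ j ∈ Finset.range k, (1 / (((j + 1 : ℕ) : ℝ) + 2)) * (‖(0 : V n)‖ ^ 2) ^ (j + 1) = 0 := by
    refine Finset.sum_eq_zero fun j _ => ?_
    rw [norm_zero]
    simp
  rw [h]
  norm_num

theorem u0_low {n : ℕ} (k : ℕ) (hk : 2 ≤ k) (z : V n) :
    1 / 2 + ‖z‖ ^ 2 / 3 ≤ (u0 k z z).re := by
  obtain ⟨l, rfl⟩ : ∃ l, k = l + 1 := ⟨k - 1, by omega⟩
  rw [u0_re, Finset.sum_range_succ', Finset.sum_range_succ']
  have h : 0 ≤ ∑ j ∈ Finset.range l, (1 / (((j + 1 + 1 : ℕ) : ℝ) + 2)) * (‖z‖ ^ 2) ^ (j + 1 + 1) :=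
    Finset.sum_nonneg fun j _ => by positivity
  have e1 : (1 / (((0 + 1 : ℕ) : ℝ) + 2)) * (‖z‖ ^ 2) ^ (0 + 1) = ‖z‖ ^ 2 / 3 := by
    push_cast
    ring
  have e2 : (1 / (((0 : ℕ) : ℝ) + 2)) * (‖z‖ ^ 2) ^ 0 = 1 / 2 := by
    push_cast
    ring
  rw [e1, e2]
  linarith

theorem t_MIN : S_MIN := by
  intro n k h v0 hk _ _ hA
  obtain ⟨v, hv, h01, h10, -, hsum⟩ := hA
  choose C hC0 hC using term_bd v hv h01 h10
  obtain ⟨K, hK⟩ : ∃ K : ℝ, K = ∑ i ∈ Finset.range (k + 1), ∑ j ∈ Finset.range (k + 1), C i j :=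
    ⟨_, rfl⟩
  have hK0 : 0 ≤ K := by
    rw [hK]
    exact Finset.sum_nonneg fun i _ => Finset.sum_nonneg fun j _ => hC0 i j
  have hdiff : ∀ z : V n, ‖z‖ < 1 → ‖v0 z z - v0 0 0‖ ≤ K * ‖z‖ ^ 2 := by
    intro z hz
    rw [hsum z z, hsum 0 0, ← Finset.sum_sub_distrib, hK, Finset.sum_mul]
    refine (norm_sum_le _ _).trans (Finset.sum_le_sum fun i _ => ?_)
    rw [← Finset.sum_sub_distrib, Finset.sum_mul]
    exact (norm_sum_le _ _).trans (Finset.sum_le_sum fun j _ => hC i j z hz)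
  obtain ⟨a, ha⟩ : ∃ a : ℝ, a = (v0 0 0).re := ⟨_, rfl⟩
  obtain ⟨B, hB⟩ : ∃ B : ℝ, B = K + |a| * k + ‖h‖ := ⟨_, rfl⟩
  have hk1 : (1 : ℝ) ≤ k := by
    have : (2 : ℝ) ≤ k := by exact_mod_cast hk
    linarith
  have haB : |a| ≤ B := by
    have h1 : |a| * 1 ≤ |a| * k := mul_le_mul_of_nonneg_left hk1 (abs_nonneg _)
    have h2 := norm_nonneg h
    rw [hB]
    linarith
  have hB0 : 0 ≤ B := (abs_nonneg a).trans haB
  refine ⟨1 / (3 * (B + 1)), by positivity, fun ε hε hε2 => ?_⟩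
  have hεB : ε * B < 1 / 3 := by
    have h1 : ε * (3 * (B + 1)) < 1 := by
      rwa [lt_div_iff₀ (by positivity)] at hε2
    nlinarith
  have hre : ∀ x y : ℂ, (x + (ε : ℂ) * y).re = x.re + ε * y.re := by
    intro x y
    rw [Complex.add_re, Complex.re_ofReal_mul]
  have hU0 : (u0 k (0 : V n) 0 + ε * v0 0 0).re = 1 / 2 + ε * a := by
    rw [hre, u0_zero, ha]
  rw [hU0]
  refine ⟨?_, fun z hz0 hz1 => ?_⟩
  · have h1 : -(ε * B) ≤ ε * a := by
      have h2 : -B ≤ a := (neg_le_neg haB).trans (neg_abs_le a)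
      have h3 := mul_le_mul_of_nonneg_left h2 hε.le
      linarith
    linarith
  · obtain ⟨r, hr⟩ : ∃ r : ℝ, r = ‖z‖ ^ 2 := ⟨_, rfl⟩
    have hzn : 0 < ‖z‖ := norm_pos_iff.2 hz0
    have hr0 : 0 < r := by rw [hr]; positivity
    have hr1 : r < 1 := by
      rw [hr]
      exact pow_lt_one₀ (norm_nonneg _) hz1 (by norm_num)
    rw [hre, Complex.add_re, ← hr]
    have h1 := u0_low k hk z
    rw [← hr] at h1
    have h2 : a - K * r ≤ (v0 z z).re := by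
      have h3 := hdiff z hz1
      have h4 : |(v0 z z - v0 0 0).re| ≤ ‖v0 z z - v0 0 0‖ := Complex.abs_re_le_norm _
      rw [Complex.sub_re, ← ha] at h4
      have h5 := neg_abs_le ((v0 z z).re - a)
      rw [← hr] at h3
      linarith
    have h6 : -(‖h‖ * r) ≤ (hp (h z) z).re := by
      have h7 : ‖hp (h z) z‖ ≤ ‖h‖ * r := by
        unfold hp
        calc ‖inner ℂ z (h z)‖ ≤ ‖z‖ * ‖h z‖ := norm_inner_le_norm _ _
          _ ≤ ‖z‖ * (‖h‖ * ‖z‖) := mul_le_mul_of_nonneg_left (h.le_opNorm z) (norm_nonneg _)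
          _ = ‖h‖ * r := by rw [hr]; ring
      have h8 := Complex.abs_re_le_norm (hp (h z) z)
      have h9 := neg_abs_le (hp (h z) z).re
      linarith
    obtain ⟨q, hq⟩ : ∃ q : ℝ, q = (1 - r) ^ k := ⟨_, rfl⟩
    have hq1 : q ≤ 1 := by
      rw [hq]
      exact pow_le_one₀ (by linarith) (by linarith)
    have hq2 : 1 - k * r ≤ q := by
      have h10 := one_add_mul_le_pow (a := -r) (by linarith) k
      rw [hq]
      have e : (1 + -r) ^ k = (1 - r) ^ k := by ring_nf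
      rw [e] at h10
      linarith
    rw [← hq]
    have h11 : -(|a| * (k * r)) ≤ a * (1 - q) := by
      have h12 : |a * (1 - q)| ≤ |a| * (k * r) := by
        rw [abs_mul, abs_of_nonneg (by linarith : (0 : ℝ) ≤ 1 - q)]
        exact mul_le_mul_of_nonneg_left (by linarith) (abs_nonneg _)
      have h13 := neg_abs_le (a * (1 - q))
      linarith
    have h14 : ε * (a - K * r + -(‖h‖ * r)) ≤ ε * ((v0 z z).re + (hp (h z) z).re) :=
      mul_le_mul_of_nonneg_left (by linarith) hε.le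
    have h15 : ε * -(|a| * (k * r)) ≤ ε * (a * (1 - q)) := mul_le_mul_of_nonneg_left h11 hε.le
    have h16 : ε * B * r < 1 / 3 * r := mul_lt_mul_of_pos_right hεB hr0
    have h17 : ε * B * r = ε * (K * r) + ε * (|a| * (k * r)) + ε * (‖h‖ * r) := by
      rw [hB]; ring
    have h18 : q * (1 / 2 + ε * a) = q / 2 + ε * a - ε * (a * (1 - q)) := by ring
    have h19 : ε * (a - K * r + -(‖h‖ * r)) = ε * a - ε * (K * r) - ε * (‖h‖ * r) := by ring
    rw [h18]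
    linarith

end Pool.Agent.H553.RS
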